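import Pool.Agent.L0h68.AL.Cug
import Pool.Agent.L0h29.AL.ArtDefs4
import Pool.Agent.L0h29.AL.CEX

/-!
# Module GPG of project AL, part 3: an algorithm for the parabolic subgroups without infinite labels
gives one for the whole group
-/

set_option autoImplicit false

namespace Pool.Agent.L0h47.AL

open Pool.Agent.K7.H20.AW Pool.Agent.L0h29.AL Pool.Agent.L0h68.AL

/-! ## 1. the free group -/

theorem wv_of {β : Type*} (v : List (β × Bool)) : wv FreeGroup.of v = FreeGroup.mk v := by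
  induction v with
  | nil => rfl
  | cons p v ih =>
    obtain ⟨a, b⟩ := p
    have h : FreeGroup.mk ((a, b) :: v) = FreeGroup.mk [(a, b)] * FreeGroup.mk v := by
      rw [FreeGroup.mul_mk]; rfl
    rw [wv_cons, ih, h]
    congr 1
    cases b
    · show (FreeGroup.of a)⁻¹ = _
      rw [FreeGroup.of, FreeGroup.inv_mk]
      rfl
    · rfl

theorem lift_mk {β G : Type*} [Group G] (φ : β → G) (v : List (β × Bool)) :
    FreeGroup.lift φ (FreeGroup.mk v) = wv φ v := by
  rw [← wv_of, wv_hom]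
  simp

theorem mat_nil (n : ℕ) (i j : Fin n) : mat n [] i j = if i = j then 1 else 0 := by
  rw [mat_apply]
  have : lb [] i.val j.val = 0 := by simp [lb]
  rw [this]
  simp

theorem triv_free {n : ℕ} (v : List (ℕ × Bool)) :
    Triv (n, [], v) ↔ FreeGroup.mk (fl n v) = 1 := by
  show nval (mat n []) v = 1 ↔ _
  rw [nval_iff, ← wv_fl]
  have h1 : ∀ u : List (Fin n × Bool), wv (g (mat n [])) u = 1 ↔ FreeGroup.mk u = 1 := by
    intro u
    constructor
    · intro h
      let F : Art (mat n []) →* FreeGroup (Fin n) :=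
        Pool.Agent.K7.H87.FJ6.Sh.lift (fun b => FreeGroup.of b) (by
          intro i j
          rw [mat_nil]
          by_cases hij : i = j
          · rw [if_pos hij, hij]
          · rw [if_neg hij, Pool.Agent.Helper741.alt_zero, Pool.Agent.Helper741.alt_zero])
          (fun _ => pow_zero _)
      have h2 := wv_hom (g (mat n [])) F u
      rw [h, map_one] at h2
      rw [← wv_of]
      refine Eq.trans ?_ h2.symm
      have h3 : (fun b => F (g (mat n []) b)) = FreeGroup.of := by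
        funext b
        exact Pool.Agent.K7.H87.FJ6.Sh.lift_gen _ _ _ _
      rw [h3]
    · intro h
      rw [← lift_mk, h, map_one]
  exact h1 _

/-! ## 2. the matrices -/

section mats

variable {n : ℕ} {L : List (List ℕ)} {X : List ℕ}

theorem getD_range {α : Type*} (f : ℕ → α) (d : α) {i : ℕ} (h : i < n) :
    ((List.range n).map f).getD i d = f i := by
  rw [List.getD_eq_getElem _ _ (by simpa using h)]
  simp

theorem lb_clL {i j : ℕ} (hi : i < n) (hj : j < n) :
    lb (clL n L X) i j = if i ∈ X ∧ j ∈ X then lb L i j else 2 := by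
  have h1 : min i j < n := lt_of_le_of_lt (min_le_left _ _) hi
  have h2 : max i j < n := max_lt hi hj
  rw [lb, clL, getD_range _ _ h1, getD_range _ _ h2]
  have h3 : ent L (min i j) (max i j) = lb L i j := by
    rw [ent, lb, min_eq_left (min_le_max), max_eq_right (min_le_max)]
  rw [h3]
  have h4 : (min i j ∈ X ∧ max i j ∈ X) ↔ (i ∈ X ∧ j ∈ X) := by
    rcases le_total i j with h | h
    · rw [min_eq_left h, max_eq_right h]
    · rw [min_eq_right h, max_eq_left h, and_comm]
  simp only [h4]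

theorem mat_clL (Y : Finset (Fin n)) (hY : ∀ i : Fin n, i ∈ Y ↔ i.val ∈ X) :
    mat n (clL n L X) = cl (mat n L) Y := by
  ext i j
  show mat n (clL n L X) i j = if i = j then 1 else if i ∈ Y ∧ j ∈ Y then mat n L i j else 2
  rw [mat_apply, mat_apply]
  by_cases h : i = j
  · rw [if_pos h, if_pos h]
  · rw [if_neg h, if_neg h, if_neg h, lb_clL i.2 j.2]
    have h2 : (i ∈ Y ∧ j ∈ Y) ↔ (i.val ∈ X ∧ j.val ∈ X) := by rw [hY, hY]
    by_cases h1 : i.val ∈ X ∧ j.val ∈ X
    · rw [if_pos h1, if_pos (h2.2 h1)]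
    · rw [if_neg h1, if_neg (fun e => h1 (h2.1 e))]
      norm_num

theorem triv_clL (hC : S_CLX.{0}) (Y : Finset (Fin n)) (hY : ∀ i : Fin n, i ∈ Y ↔ i.val ∈ X)
    (v : List (ℕ × Bool)) (hv : ∀ a ∈ fl n v, a.1 ∈ Y) :
    Triv (n, clL n L X, v) ↔ wv (g (mat n L)) (fl n v) = 1 := by
  show nval (mat n (clL n L X)) v = 1 ↔ _
  rw [nval_iff, ← wv_fl, mat_clL Y hY]
  exact (hC (Fin n) (mat n L) Y (fl n v) hv).symm

end mats

/-! ## 3. certificates -/

/-- the product of the conjugates -/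
def conc {β : Type*} {γ : Type*} (c : List (List (β × Bool) × List (β × Bool) × γ)) :
    List (β × Bool) := c.flatMap fun p => p.1 ++ p.2.1 ++ inw p.1

theorem conc_cons {β : Type*} {γ : Type*} (p : List (β × Bool) × List (β × Bool) × γ)
    (c : List (List (β × Bool) × List (β × Bool) × γ)) :
    conc (p :: c) = (p.1 ++ p.2.1 ++ inw p.1) ++ conc c := by
  simp [conc]

theorem wv_conc {β γ G : Type*} [Group G] (φ : β → G)
    (c : List (List (β × Bool) × List (β × Bool) × γ)) :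
    wv φ (conc c) = (c.map fun p => wv φ p.1 * wv φ p.2.1 * (wv φ p.1)⁻¹).prod := by
  induction c with
  | nil => rfl
  | cons p c ih =>
    rw [conc_cons, wv_append, wv_append, wv_append, wv_inw, ih, List.map_cons, List.prod_cons]

/-- the failure of one entry -/
def bad (f0 : ℕ × List (List ℕ) × List (ℕ × Bool) → Bool) (n : ℕ) (L : List (List ℕ))
    (p : List (ℕ × Bool) × List (ℕ × Bool) × List ℕ) : Bool :=
  ((p.2.2.product p.2.2).any fun q => decide (q.1 < n ∧ q.2 < n ∧ labN n L q.1 q.2 = 0)) ||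
    ((p.2.1.any fun a => decide (¬ a.1 ∈ p.2.2)) || !f0 (n, clL n L p.2.2, p.2.1))

theorem bad_iff {f0 : ℕ × List (List ℕ) × List (ℕ × Bool) → Bool} {n : ℕ} {L : List (List ℕ)}
    {p : List (ℕ × Bool) × List (ℕ × Bool) × List ℕ} : bad f0 n L p = false ↔
    (∀ i j : Fin n, i.val ∈ p.2.2 → j.val ∈ p.2.2 → mat n L i j ≠ 0) ∧
      (∀ a ∈ p.2.1, a.1 ∈ p.2.2) ∧ f0 (n, clL n L p.2.2, p.2.1) = true := by
  rw [bad, Bool.or_eq_false_iff, Bool.or_eq_false_iff, Bool.not_eq_false', List.any_eq_false,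
    List.any_eq_false]
  refine and_congr ?_ (and_congr ?_ Iff.rfl)
  · constructor
    · intro h i j hi hj h0
      refine h (i.val, j.val) (List.pair_mem_product.2 ⟨hi, hj⟩) ?_
      rw [decide_eq_true_iff]
      exact ⟨i.2, j.2, (labN_eq i j).trans h0⟩
    · rintro h ⟨i, j⟩ hq h0
      rw [decide_eq_true_iff] at h0
      obtain ⟨h1, h2, h3⟩ := h0
      rw [List.pair_mem_product] at hq
      exact h ⟨i, h1⟩ ⟨j, h2⟩ hq.1 hq.2 ((labN_eq (⟨i, h1⟩ : Fin n) ⟨j, h2⟩).symm.trans h3)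
  · refine forall₂_congr fun a _ => ?_
    rw [decide_eq_true_iff, not_not]

theorem ga_mono (k : ℕ) {m n : ℕ} (h : m ≤ n) : ga k m ≤ ga k n := by
  unfold ga
  gcongr

theorem fl_mem {n : ℕ} {v : List (ℕ × Bool)} {a : Fin n × Bool} (h : a ∈ fl n v) :
    (a.1.val, a.2) ∈ v := by
  induction v with
  | nil => simp [fl] at h
  | cons p v ih =>
    rw [fl] at h
    split_ifs at h with h1
    · rcases List.mem_cons.1 h with h | h
      · subst h
        exact List.mem_cons_self
      · exact List.mem_cons_of_mem _ (ih h)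
    · exact List.mem_cons_of_mem _ (ih h)

theorem fl_up {n : ℕ} (v : List (Fin n × Bool)) : fl n (v.map L0h68.AL.up) = v := by
  induction v with
  | nil => rfl
  | cons p v ih =>
    rw [List.map_cons, fl, L0h68.AL.up, dif_pos p.1.2, ih]

/-- the condition which is tested -/
def Good (f0 : ℕ × List (List ℕ) × List (ℕ × Bool) → Bool) (n : ℕ) (L : List (List ℕ))
    (w : List (ℕ × Bool)) (c : List (List (ℕ × Bool) × List (ℕ × Bool) × List ℕ)) : Prop :=
  Triv (n, [], w ++ inw (conc c)) ∧ ∀ p ∈ c, bad f0 n L p = false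

theorem key_mp (hC : S_CLX.{0}) {f0 : ℕ × List (List ℕ) × List (ℕ × Bool) → Bool} {n : ℕ}
    {L : List (List ℕ)}
    (hf : ∀ X : List ℕ, (∀ i j : Fin n, i.val ∈ X → j.val ∈ X → mat n L i j ≠ 0) →
        ∀ w, (f0 (n, clL n L X, w) = true ↔ Triv (n, clL n L X, w)))
    {w : List (ℕ × Bool)} {c : List (List (ℕ × Bool) × List (ℕ × Bool) × List ℕ)}
    (h : Good f0 n L w c) : Triv (n, L, w) := by
  classical
  obtain ⟨h1, h2⟩ := h
  rw [triv_free] at h1
  have h3 := congrArg (FreeGroup.lift (g (mat n L))) h1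
  rw [lift_mk, map_one, wv_fl, wv_append, wv_inw, mul_inv_eq_one] at h3
  show nval (mat n L) w = 1
  rw [nval_iff, h3, wv_conc]
  apply List.prod_eq_one
  intro x hx
  obtain ⟨p, hp, rfl⟩ := List.mem_map.1 hx
  obtain ⟨h4, h5, h6⟩ := bad_iff.1 (h2 p hp)
  rw [hf p.2.2 h4 p.2.1] at h6
  let Y : Finset (Fin n) := Finset.univ.filter fun i => i.val ∈ p.2.2
  have hY : ∀ i : Fin n, i ∈ Y ↔ i.val ∈ p.2.2 := by intro i; simp [Y]
  rw [triv_clL hC Y hY p.2.1 (fun a ha => (hY a.1).2 (h5 _ (fl_mem ha))), wv_fl] at h6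
  rw [h6, mul_one, mul_inv_cancel]

theorem key_mpr (hG : S_GPA.{0}) (hC : S_CLX.{0})
    {f0 : ℕ × List (List ℕ) × List (ℕ × Bool) → Bool} {n : ℕ} {L : List (List ℕ)}
    (hf : ∀ X : List ℕ, (∀ i j : Fin n, i.val ∈ X → j.val ∈ X → mat n L i j ≠ 0) →
        ∀ w, (f0 (n, clL n L X, w) = true ↔ Triv (n, clL n L X, w)))
    {w : List (ℕ × Bool)} {K : ℕ} (hK : n + ga n w.length ≤ K) (h : Triv (n, L, w)) :
    ∃ c : List (List (ℕ × Bool) × List (ℕ × Bool) × List ℕ), (c.length ≤ K ∧ ∀ p ∈ c,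
      (p.1.length ≤ K ∧ ∀ a ∈ p.1, a.1 ≤ K) ∧ (p.2.1.length ≤ K ∧ ∀ a ∈ p.2.1, a.1 ≤ K) ∧
      (p.2.2.length ≤ K ∧ ∀ a ∈ p.2.2, a ≤ K)) ∧ Good f0 n L w c := by
  classical
  change nval (mat n L) w = 1 at h
  rw [nval_iff, ← wv_fl] at h
  obtain ⟨c, hc1, hc2, hc3⟩ := hG (Fin n) (mat n L) (fl n w) h
  rw [Fintype.card_fin] at hc1 hc2
  have hga := ga_mono n (fl_length n w)
  have hlt : ∀ i : Fin n, i.val ≤ K := fun i => by have := i.2; omega
  have hup : ∀ v : List (Fin n × Bool), ∀ a ∈ v.map L0h68.AL.up, a.1 ≤ K := by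
    intro v a ha
    obtain ⟨b, _, rfl⟩ := List.mem_map.1 ha
    exact hlt _
  refine ⟨c.map fun p => (p.1.map L0h68.AL.up, p.2.1.map L0h68.AL.up, p.2.2.toList.map Fin.val), ⟨?_, ?_⟩, ?_, ?_⟩
  · rw [List.length_map]; omega
  · intro q hq
    obtain ⟨p, hp, rfl⟩ := List.mem_map.1 hq
    obtain ⟨h1, h2, -⟩ := hc2 p hp
    refine ⟨⟨?_, hup _⟩, ⟨?_, hup _⟩, ?_, ?_⟩
    · show (p.1.map L0h68.AL.up).length ≤ K
      rw [List.length_map]; omega
    · show (p.2.1.map L0h68.AL.up).length ≤ K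
      rw [List.length_map]; omega
    · show (p.2.2.toList.map Fin.val).length ≤ K
      rw [List.length_map, Finset.length_toList]
      have := p.2.2.card_le_univ
      rw [Fintype.card_fin] at this
      omega
    · intro a ha
      obtain ⟨b, _, rfl⟩ := List.mem_map.1 ha
      exact hlt _
  · rw [triv_free, ← wv_of, wv_fl, wv_append, wv_inw, mul_inv_eq_one, ← wv_fl, wv_of, hc3, wv_conc,
      List.map_map]
    congr 1
    apply List.map_congr_left
    intro p _
    show _ = wv (ex FreeGroup.of) (p.1.map L0h68.AL.up) * wv (ex FreeGroup.of) (p.2.1.map L0h68.AL.up) *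
      (wv (ex FreeGroup.of) (p.1.map L0h68.AL.up))⁻¹
    rw [wv_up, wv_up, wv_of, wv_of]
  · intro q hq
    obtain ⟨p, hp, rfl⟩ := List.mem_map.1 hq
    obtain ⟨-, -, h3, h4, h5⟩ := hc2 p hp
    have hY : ∀ i : Fin n, i ∈ p.2.2 ↔ i.val ∈ p.2.2.toList.map Fin.val := by
      intro i
      rw [List.mem_map]
      constructor
      · intro hi
        exact ⟨i, Finset.mem_toList.2 hi, rfl⟩
      · rintro ⟨j, hj, hij⟩
        rw [← Fin.ext hij]
        exact Finset.mem_toList.1 hj
    have h6 : ∀ i j : Fin n, i.val ∈ p.2.2.toList.map Fin.val → j.val ∈ p.2.2.toList.map Fin.val →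
        mat n L i j ≠ 0 := fun i j hi hj => h3 i ((hY i).2 hi) j ((hY j).2 hj)
    refine bad_iff.2 ⟨h6, ?_, ?_⟩
    · intro a ha
      obtain ⟨b, hb, rfl⟩ := List.mem_map.1 ha
      exact (hY b.1).1 (h4 b hb)
    · rw [hf _ h6, triv_clL hC p.2.2 hY]
      · show wv (g (mat n L)) (fl n (p.2.1.map L0h68.AL.up)) = 1
        rw [fl_up]
        exact h5
      · show ∀ a ∈ fl n (p.2.1.map L0h68.AL.up), a.1 ∈ p.2.2
        rw [fl_up]
        exact h4

/-! ## 4. computability -/

section prim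

variable {α : Type*} [Primcodable α]

theorem mem_pred {X : α → List ℕ} {i : α → ℕ} (hX : Primrec X) (hi : Primrec i) :
    PrimrecPred fun a => i a ∈ X a := by
  have h : PrimrecPred fun a => (X a).idxOf (i a) < (X a).length :=
    Primrec.nat_lt.comp (Primrec.list_idxOf.comp hi hX) (Primrec.list_length.comp hX)
  refine h.of_eq fun a => ?_
  exact List.idxOf_lt_length_iff

theorem prim_clL {f : α → List (List ℕ)} {n : α → ℕ} {X : α → List ℕ} (hn : Primrec n)
    (hf : Primrec f) (hX : Primrec X) : Primrec fun a => clL (n a) (f a) (X a) := by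
  have h1 : Primrec₂ fun (z : α × ℕ) (j : ℕ) =>
      if z.2 ∈ X z.1 ∧ j ∈ X z.1 then ent (f z.1) z.2 j else 2 := by
    have hi : Primrec fun y : (α × ℕ) × ℕ => y.1.2 := Primrec.snd.comp Primrec.fst
    have hXX : Primrec fun y : (α × ℕ) × ℕ => X y.1.1 :=
      hX.comp (Primrec.fst.comp Primrec.fst)
    exact Primrec.ite ((mem_pred hXX hi).and (mem_pred hXX Primrec.snd))
      (prim_lb (hf.comp (Primrec.fst.comp Primrec.fst)) hi Primrec.snd) (Primrec.const 2)
  have h2 : Primrec₂ fun (a : α) (i : ℕ) => (List.range (n a)).map fun j =>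
      if i ∈ X a ∧ j ∈ X a then ent (f a) i j else 2 :=
    Primrec.list_map (Primrec.list_range.comp (hn.comp Primrec.fst)) h1
  exact Primrec.list_map (Primrec.list_range.comp hn) h2

theorem prim_conc : Primrec fun c : List (List (ℕ × Bool) × List (ℕ × Bool) × List ℕ) =>
    conc c := by
  have hp : Primrec fun z : List (List (ℕ × Bool) × List (ℕ × Bool) × List ℕ) ×
      (List (ℕ × Bool) × List (ℕ × Bool) × List ℕ) => z.2.1 := Primrec.fst.comp Primrec.snd
  have hq : Primrec fun z : List (List (ℕ × Bool) × List (ℕ × Bool) × List ℕ) ×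
      (List (ℕ × Bool) × List (ℕ × Bool) × List ℕ) => z.2.2.1 :=
    Primrec.fst.comp (Primrec.snd.comp Primrec.snd)
  have h1 : Primrec₂ fun (_ : List (List (ℕ × Bool) × List (ℕ × Bool) × List ℕ))
      (p : List (ℕ × Bool) × List (ℕ × Bool) × List ℕ) => p.1 ++ p.2.1 ++ inw p.1 :=
    Primrec.list_append.comp (Primrec.list_append.comp hp hq) (prim_inw hp)
  exact Primrec.list_flatMap Primrec.id h1

theorem prim_ga : Primrec₂ ga := by
  unfold ga
  exact pr_pow.comp₂ (Primrec.nat_mul.comp₂ (pr_pow.comp₂ (Primrec₂.const 2)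
    (Primrec.succ.comp₂ Primrec₂.left)) (Primrec.nat_add.comp₂ Primrec₂.right (Primrec₂.const 2)))
    (Primrec.nat_add.comp₂ Primrec₂.left (Primrec₂.const 2))

end prim

/-- the type of certificates -/
abbrev Cert : Type := List (ℕ × Bool) × List (ℕ × Bool) × List ℕ

/-- the type of inputs -/
abbrev Inp : Type := ℕ × List (List ℕ) × List (ℕ × Bool)

theorem comp_bad (hX : S_CEX) {f0 : Inp → Bool} (hf0 : Computable f0) :
    Computable fun z : Inp × Cert => bad f0 z.1.1 z.1.2.1 z.2 := by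
  have hn : Primrec fun z : Inp × Cert => z.1.1 := Primrec.fst.comp Primrec.fst
  have hL : Primrec fun z : Inp × Cert => z.1.2.1 :=
    Primrec.fst.comp (Primrec.snd.comp Primrec.fst)
  have hXX : Primrec fun z : Inp × Cert => z.2.2.2 :=
    Primrec.snd.comp (Primrec.snd.comp Primrec.snd)
  have hr : Primrec fun z : Inp × Cert => z.2.2.1 :=
    Primrec.fst.comp (Primrec.snd.comp Primrec.snd)
  have h1 : Computable fun z : Inp × Cert => (z.2.2.2.product z.2.2.2).any fun q =>
      decide (q.1 < z.1.1 ∧ q.2 < z.1.1 ∧ labN z.1.1 z.1.2.1 q.1 q.2 = 0) := by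
    refine hX (Inp × Cert) (ℕ × ℕ) (fun z => z.2.2.2.product z.2.2.2)
      (fun z q => decide (q.1 < z.1.1 ∧ q.2 < z.1.1 ∧ labN z.1.1 z.1.2.1 q.1 q.2 = 0))
      (prim_product hXX hXX).to_comp ?_
    have hq1 : Primrec fun y : (Inp × Cert) × (ℕ × ℕ) => y.2.1 := Primrec.fst.comp Primrec.snd
    have hq2 : Primrec fun y : (Inp × Cert) × (ℕ × ℕ) => y.2.2 := Primrec.snd.comp Primrec.snd
    have hn' : Primrec fun y : (Inp × Cert) × (ℕ × ℕ) => y.1.1.1 := hn.comp Primrec.fst
    have hL' : Primrec fun y : (Inp × Cert) × (ℕ × ℕ) => y.1.1.2.1 := hL.comp Primrec.fst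
    have h : PrimrecPred fun y : (Inp × Cert) × (ℕ × ℕ) =>
        y.2.1 < y.1.1.1 ∧ y.2.2 < y.1.1.1 ∧ labN y.1.1.1 y.1.1.2.1 y.2.1 y.2.2 = 0 :=
      (Primrec.nat_lt.comp hq1 hn').and ((Primrec.nat_lt.comp hq2 hn').and
        (Primrec.eq.comp (prim_labN hn' hL' hq1 hq2) (Primrec.const 0)))
    exact h.decide.to_comp
  have h2 : Computable fun z : Inp × Cert => z.2.2.1.any fun a => decide (¬ a.1 ∈ z.2.2.2) := by
    refine hX (Inp × Cert) (ℕ × Bool) (fun z => z.2.2.1)
      (fun z a => decide (¬ a.1 ∈ z.2.2.2)) hr.to_comp ?_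
    have h : PrimrecPred fun y : (Inp × Cert) × (ℕ × Bool) => ¬ y.2.1 ∈ y.1.2.2.2 :=
      (mem_pred (hXX.comp Primrec.fst) (Primrec.fst.comp Primrec.snd)).not
    exact h.decide.to_comp
  have h3 : Computable fun z : Inp × Cert => f0 (z.1.1, clL z.1.1 z.1.2.1 z.2.2.2, z.2.2.1) :=
    hf0.comp (Primrec.pair hn (Primrec.pair (prim_clL hn hL hXX) hr)).to_comp
  have hor := Primrec₂.to_comp Primrec.or
  exact hor.comp h1 (hor.comp h2 (Primrec.not.to_comp.comp h3))

/-- the test of one certificate -/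
def tst (f0 f1 : Inp → Bool) (z : Inp × List Cert) : Bool :=
  f1 (z.1.1, [], z.1.2.2 ++ inw (conc z.2)) && !(z.2.any fun p => bad f0 z.1.1 z.1.2.1 p)

/-- `bad` on pairs -/
def bdI (f0 : Inp → Bool) (z : Inp × Cert) : Bool := bad f0 z.1.1 z.1.2.1 z.2

theorem comp_bdI (hX : S_CEX) {f0 : Inp → Bool} (hf0 : Computable f0) :
    Computable (bdI f0) := comp_bad hX hf0

theorem comp_all (hX : S_CEX) {f0 : Inp → Bool} (hf0 : Computable f0) :
    Computable fun z : Inp × List Cert => z.2.any fun p => bdI f0 (z.1, p) := by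
  refine hX (Inp × List Cert) Cert (fun z => z.2) (fun z p => bdI f0 (z.1, p))
    Computable.snd ?_
  have h3 : Computable fun y : (Inp × List Cert) × Cert => (y.1.1, y.2) :=
    Computable.pair (Computable.fst.comp Computable.fst) Computable.snd
  have h4 : Computable fun y : (Inp × List Cert) × Cert => bdI f0 (y.1.1, y.2) :=
    (comp_bdI hX hf0).comp h3
  exact h4

theorem comp_tst (hX : S_CEX) {f0 f1 : Inp → Bool} (hf0 : Computable f0) (hf1 : Computable f1) :
    Computable (tst f0 f1) := by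
  have h0 : Primrec fun z : Inp × List Cert =>
      (((z.1.1, [], z.1.2.2 ++ inw (conc z.2)) : ℕ × List (List ℕ) × List (ℕ × Bool))) :=
    Primrec.pair (Primrec.fst.comp Primrec.fst) (Primrec.pair (Primrec.const [])
      (Primrec.list_append.comp (Primrec.snd.comp (Primrec.snd.comp Primrec.fst))
        (prim_inw (prim_conc.comp Primrec.snd))))
  have h1 : Computable fun z : Inp × List Cert =>
      f1 (z.1.1, [], z.1.2.2 ++ inw (conc z.2)) := hf1.comp h0.to_comp
  have h2 := comp_all hX hf0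
  have h3 : Computable fun z : Inp × List Cert => !(z.2.any fun p => bdI f0 (z.1, p)) :=
    Primrec.not.to_comp.comp h2
  have hand := Primrec₂.to_comp Primrec.and
  have h4 := hand.comp h1 h3
  exact h4.of_eq fun z => rfl

/-! ## 5. the module -/

/-- GPG -/
theorem gpg (hG : S_GPA.{0}) (hC : S_CLX.{0}) : S_GPG := by
  intro f0 hf0
  obtain ⟨f1, hf1, hf1'⟩ := rac
  have hX := cex
  have hr : Primrec fun K : ℕ => List.range (K + 1) := Primrec.list_range.comp Primrec.succ
  obtain ⟨E1, hE1, hE1'⟩ := cls (ℕ × Bool) (fun K => (List.range (K + 1)).product [true, false])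
    (prim_product hr (Primrec.const _))
  obtain ⟨E0, hE0, hE0'⟩ := cls ℕ (fun K => List.range (K + 1)) hr
  obtain ⟨E2, hE2, hE2'⟩ := cls Cert (fun K => (E1 K).product ((E1 K).product (E0 K)))
    (prim_product hE1 (prim_product hE1 hE0))
  have hm1 : ∀ K u, u ∈ E1 K ↔ (u.length ≤ K ∧ ∀ a ∈ u, a.1 ≤ K) := by
    intro K u
    rw [hE1']
    refine and_congr Iff.rfl (forall₂_congr fun a _ => ?_)
    obtain ⟨a, b'⟩ := a
    rw [List.pair_mem_product, List.mem_range]
    have h1 : b' ∈ [true, false] := by cases b' <;> simp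
    simp only [h1, and_true]
    omega
  have hm0 : ∀ K u, u ∈ E0 K ↔ (u.length ≤ K ∧ ∀ a ∈ u, a ≤ K) := by
    intro K u
    rw [hE0']
    refine and_congr Iff.rfl (forall₂_congr fun a _ => ?_)
    rw [List.mem_range]
    omega
  have hmem : ∀ K c, c ∈ E2 K ↔ (c.length ≤ K ∧ ∀ p ∈ c,
      (p.1.length ≤ K ∧ ∀ a ∈ p.1, a.1 ≤ K) ∧ (p.2.1.length ≤ K ∧ ∀ a ∈ p.2.1, a.1 ≤ K) ∧
      (p.2.2.length ≤ K ∧ ∀ a ∈ p.2.2, a ≤ K)) := by
    intro K c
    rw [hE2']
    refine and_congr Iff.rfl (forall₂_congr fun p _ => ?_)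
    obtain ⟨u, v, X⟩ := p
    rw [List.pair_mem_product, List.pair_mem_product, hm1, hm1, hm0]
  refine ⟨fun x => (E2 (x.1 + ga x.1 x.2.2.length)).any fun c => tst f0 f1 (x, c), ?_, ?_⟩
  · refine hX Inp (List Cert) (fun x : Inp => E2 (x.1 + ga x.1 x.2.2.length))
      (fun x c => tst f0 f1 (x, c)) ?_ ?_
    · exact (hE2.comp (Primrec.nat_add.comp Primrec.fst (prim_ga.comp Primrec.fst
        (Primrec.list_length.comp (Primrec.snd.comp Primrec.snd))))).to_comp
    · have h1 : Computable fun z : Inp × List Cert => tst f0 f1 (z.1, z.2) :=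
        (comp_tst hX hf0 hf1).of_eq fun z => rfl
      exact h1
  · intro n L hf w
    have h2 : ∀ i j, mat n [] i j ≤ 2 := by
      intro i j
      rw [mat_nil]
      split_ifs <;> omega
    have hgood : ∀ c : List Cert, tst f0 f1 ((n, L, w), c) = true ↔ Good f0 n L w c := by
      intro c
      rw [tst, Bool.and_eq_true, hf1' n [] h2, Bool.not_eq_true', List.any_eq_false, Good]
      refine and_congr Iff.rfl (forall₂_congr fun p _ => ?_)
      rw [Bool.not_eq_true]
    rw [List.any_eq_true]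
    constructor
    · rintro ⟨c, _, hc⟩
      exact key_mp hC hf ((hgood c).1 hc)
    · intro h
      obtain ⟨c, hc1, hc2⟩ := key_mpr hG hC hf le_rfl h
      exact ⟨c, (hmem _ c).2 hc1, (hgood c).2 hc2⟩

end Pool.Agent.L0h47.AL
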